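import Pool.Agent.H44.Har

set_option autoImplicit false

namespace Pool.Agent.Results.MP_7e30a6_pr.Interval

open MeasureTheory ProbabilityTheory Measure unitInterval Filter Topology Finset SimpleGraph Pool.Agent.H44.Har
open scoped ENNReal

noncomputable section

def lev : ℕ → ℕ × ℕ
  | 0 => (0, 0)
  | n + 1 => if (lev n).2 < 6 * (lev n).1 then ((lev n).1, (lev n).2 + 1) else ((lev n).1 + 1, 0)

def S (n : ℕ) : Prop := 5 * (lev n).1 ≤ (lev n).2 ∧ (lev n).2 < 6 * (lev n).1

instance (n : ℕ) : Decidable (S n) := by unfold S; infer_instance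

def en (n : ℕ) : ℕ := if (lev n).2 ≤ 5 * (lev n).1 then (lev n).2 else 30 * (lev n).1 - 5 * (lev n).2

lemma en_spec (n : ℕ) : (S n → en (n + 1) + 5 ≤ en n) ∧ en (n + 1) ≤ en n + 1 := by
  simp only [S, en, lev]
  split_ifs <;> simp only at * <;> omega

lemma lev_add {n j : ℕ} (h : lev n = (j, 0)) : ∀ r ≤ 6 * j, lev (n + r) = (j, r) := by
  intro r hr
  induction r with
  | zero => exact h
  | succ r ih => rw [← add_assoc, lev, ih (by omega), if_pos (by simp only; omega)]

lemma runs (j : ℕ) : ∃ n, j ≤ n ∧ ∀ r < j, S (n + r) := by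
  have : ∀ j, ∃ n, lev n = (j, 0) := fun j => by
    induction j with
    | zero => exact ⟨0, rfl⟩
    | succ j ih =>
      obtain ⟨n, h⟩ := ih
      exact ⟨n + 6 * j + 1, by rw [lev, lev_add h _ le_rfl]; simp⟩
  obtain ⟨n, h⟩ := this j
  refine ⟨n + 5 * j, by omega, fun r hr => ?_⟩
  rw [S, add_assoc, lev_add h _ (by omega)]
  simp only; omega

def A := Fin 10000

instance : Finite A := by unfold A; infer_instance

instance : Fintype A := Fintype.ofFinite _

instance : DecidableEq A := Classical.decEq _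

instance : Zero A := ⟨(0 : Fin 10000)⟩

lemma cardA : Fintype.card A = 10000 := by rw [← Nat.card_eq_fintype_card]; exact Nat.card_fin _

def valid : List A → Prop
  | [] => True
  | a :: l => valid l ∧ (S l.length → a = 0)

def V := {l : List A // valid l}

instance : DecidableEq V := by unfold V; infer_instance

instance : Countable V := by unfold V; infer_instance

lemma valid_drop : ∀ (i : ℕ) {l : List A}, valid l → valid (l.drop i)
  | 0, _, h => h
  | _ + 1, [], h => h
  | i + 1, _ :: _, h => valid_drop i h.1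

def o : V := ⟨[], trivial⟩

def par (v : V) : V := ⟨v.1.drop 1, valid_drop 1 v.2⟩

def kid (v : V) (a : A) : V := ⟨(if S v.1.length then 0 else a) :: v.1, v.2, fun h => if_pos h⟩

def G : SimpleGraph V := fromRel fun u v => par u = v

lemma adj {u v : V} : G.Adj u v ↔ (∃ a, u = kid v a) ∨ ∃ a, v = kid u a := by
  have k : ∀ u v : V, u ≠ v ∧ par u = v ↔ ∃ a, u = kid v a := by
    rintro ⟨_ | ⟨a, l⟩, h⟩ v
    · refine ⟨fun h => (h.1 h.2).elim, fun ⟨a, h⟩ => by simpa [kid] using congrArg (·.1) h⟩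
    · refine ⟨fun h2 => ⟨a, Subtype.ext ?_⟩, fun ⟨b, h2⟩ => ⟨fun h3 => ?_, Subtype.ext ?_⟩⟩
      · rw [← h2.2]; simp only [kid, par, List.drop_succ_cons, List.drop_zero, List.cons.injEq, and_true]
        split_ifs with c
        exacts [h.2 c, rfl]
      · simpa [kid, ← h3] using congrArg (·.1.length) h2
      · rw [h2]; rfl
  rw [← k, ← k, G, fromRel_adj, and_or_left, ne_comm (a := v)]

lemma par_kid (v : V) (a : A) : par (kid v a) = v := rfl

lemma nbr (u : V) : G.neighborSet u ⊆ ↑(insert (par u) (univ.image (kid u))) := fun v h => by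
  rcases adj.1 h with ⟨a, rfl⟩ | ⟨a, rfl⟩ <;> simp [par_kid]

lemma conn : G.Connected := by
  have : ∀ n (v : V), v.1.length = n → G.Reachable v o := by
    intro n
    induction n with
    | zero => exact fun v h => by rw [show v = o from Subtype.ext (List.eq_nil_of_length_eq_zero h)]
    | succ n ih =>
      refine fun v h => (Adj.reachable (G := G) ((fromRel_adj _ v (par v)).2 ⟨fun e => ?_, .inl rfl⟩)).trans (ih (par v) (by simp [par, h]))
      simpa [par, h] using congrArg (·.1.length) e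
  exact @Connected.mk _ _ (fun u v => (this _ u rfl).trans (this _ v rfl).symm) ⟨o⟩

lemma deep {C : Set V} (h : C.Infinite) (n : ℕ) : ∃ y ∈ C, n ≤ y.1.length := by
  by_contra hn
  push Not at hn
  exact h (((List.finite_length_lt A n).preimage Subtype.val_injective.injOn).subset hn)

lemma amen (H : G.Subgraph) (x : V) (hx : x ∈ H.verts) {ε : ℝ} (hε : 0 < ε) :
    ∃ K : Finset V, K.Nonempty ∧ ↑K ⊆ H.verts ∧
      ({e ∈ H.edgeSet | ∃ u ∈ K, ∃ v ∉ K, e = s(u, v)}.ncard : ℝ) ≤ ε * K.card := by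
  have hv : ∀ y, H.spanningCoe.Reachable y x → ∀ z : V, z.1 <:+ y.1 → x.1.length < z.1.length ∨ z = y →
      z ∈ H.verts := by
    rintro y ⟨q⟩
    induction q with
    | nil => exact fun z h1 h2 => h2.elim (fun h => absurd h1.length_le (by omega)) (· ▸ hx)
    | @cons y y' _ h q ih =>
      intro z h1 h2
      by_cases e : z = y
      · exact e ▸ H.edge_vert h
      refine ih hx z ?_ (.inl (h2.resolve_right e))
      rcases adj.1 (H.adj_sub h) with ⟨a, rfl⟩ | ⟨a, rfl⟩
      · exact (List.suffix_cons_iff.1 h1).resolve_left fun c => e (Subtype.ext c)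
      · exact h1.trans (List.suffix_cons _ _)
  by_cases hC : {y | H.spanningCoe.Reachable y x}.Finite
  · refine ⟨hC.toFinset, ⟨x, by simp⟩, fun y hy => hv y (by simpa using hy) y (List.suffix_refl _) (.inr rfl), ?_⟩
    rw [Set.eq_empty_of_forall_notMem (s := {e ∈ H.edgeSet | _}), Set.ncard_empty, Nat.cast_zero]
    · positivity
    rintro _ ⟨h1, u, h2, v, h3, rfl⟩
    exact h3 (by simpa using (show H.spanningCoe.Adj u v from h1).symm.reachable.trans (by simpa using h2))
  obtain ⟨j, hj⟩ := exists_nat_ge (2 / ε)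
  obtain ⟨n, h1, h2⟩ := runs (j + 1 + x.1.length)
  obtain ⟨y, h3, h4⟩ := deep hC (n + j + 1)
  let a : ℕ → V := fun i => ⟨y.1.drop (y.1.length - i), valid_drop _ y.2⟩
  have al : ∀ i ≤ n + j + 1, (a i).1.length = i := fun i hi => by simp [a]; omega
  have ap : ∀ i ≤ n + j, par (a (i + 1)) = a i := fun i hi => Subtype.ext (by
    simp only [par, a, List.drop_drop]; congr 1; omega)
  refine ⟨(Icc n (n + j)).image a, ⟨a n, mem_image_of_mem _ (by simp)⟩, fun z hz => ?_, ?_⟩
  · obtain ⟨i, hi, rfl⟩ := mem_image.1 hz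
    rw [mem_Icc] at hi
    exact hv y h3 _ (List.drop_suffix _ _) (.inl (by rw [al i (by omega)]; omega))
  have c1 : #((Icc n (n + j)).image a) = j + 1 := by
    rw [card_image_of_injOn fun i hi k hk e => by
      rw [coe_Icc] at hi hk; rw [← al i (by linarith [hi.2]), e, al k (by linarith [hk.2])]]
    simp; omega
  have c2 : {e ∈ H.edgeSet | ∃ u ∈ (Icc n (n + j)).image a, ∃ v ∉ (Icc n (n + j)).image a, e = s(u, v)} ⊆
      {s(a n, par (a n)), s(a (n + j), a (n + j + 1))} := by
    rintro _ ⟨b1, u, b2, v, b3, rfl⟩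
    obtain ⟨i, hi, rfl⟩ := mem_image.1 b2
    rw [mem_Icc] at hi
    rcases adj.1 (H.adj_sub (show H.Adj (a i) v from b1)) with ⟨b, e⟩ | ⟨b, rfl⟩
    · obtain rfl : par (a i) = v := by rw [e, par_kid]
      rcases hi.1.eq_or_lt with rfl | c
      · simp
      · obtain ⟨i, rfl⟩ : ∃ k, i = k + 1 := ⟨i - 1, by omega⟩
        exact absurd (mem_image.2 ⟨i, by simp; omega, (ap i (by omega)).symm⟩) b3
    · have : kid (a i) b = a (i + 1) := by
        obtain ⟨c, e⟩ | ⟨c, e⟩ := adj.1 (show G.Adj (a (i + 1)) (a i) from (fromRel_adj ..).2 ⟨fun e => by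
          have := al (i + 1) (by omega); rw [e, al i (by omega)] at this; omega, .inl (ap i hi.2)⟩)
        · have hS : S (a i).1.length := by
            rw [al i (by omega)]; simpa [hi.1] using h2 (i - n) (by omega)
          rw [e]; simp [kid, hS]
        · have := congrArg (·.1.length) e
          simp only [kid, List.length_cons, al i (by omega), al (i + 1) (by omega)] at this; omega
      rw [this] at b3 ⊢
      rcases hi.2.eq_or_lt with rfl | c
      · simp
      · exact absurd (mem_image_of_mem _ (by simp; omega)) b3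
  have c3 := (Set.ncard_le_ncard c2 (by simp)).trans (Set.ncard_insert_le _ _)
  rw [Set.ncard_singleton] at c3
  rw [c1, div_le_iff₀ hε] at *
  have : ({e ∈ H.edgeSet | ∃ u ∈ (Icc n (n + j)).image a, ∃ v ∉ (Icc n (n + j)).image a, e = s(u, v)}.ncard : ℝ) ≤ 2 := by
    exact_mod_cast c3
  push_cast; nlinarith

abbrev W := V × ℤ

def H : SimpleGraph W := G □ hasse ℤ

def nu (p : I) (e : Sym2 W) : Measure Prop := toNNReal p • dirac (e ∈ H.edgeSet) + toNNReal (σ p) • dirac False

instance (p : I) (e : Sym2 W) : IsProbabilityMeasure (nu p e) := ⟨by simp [nu, ← ENNReal.coe_add]⟩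

def mu (p : I) : Measure (Sym2 W → Prop) := infinitePi (nu p)

instance (p : I) : IsProbabilityMeasure (mu p) := by unfold mu; infer_instance

lemma open_prob (p : I) (s : Finset (Sym2 W)) (h : ∀ e ∈ s, e ∈ H.edgeSet) :
    (mu p).real {ξ | ∀ e ∈ s, ξ e} = p ^ #s := by
  have := infinitePi_pi (nu p) (s := s) (t := fun _ => {True}) fun _ _ => .of_discrete
  rw [Measure.real, show {ξ : Sym2 W → Prop | ∀ e ∈ s, ξ e} = Set.pi s fun _ => {True} by ext; simp, mu, this,
    ENNReal.toReal_prod, prod_congr rfl (g := fun _ => (p : ℝ)) fun e he => by simp [nu, h e he], prod_const]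

lemma prod_indep (p : I) {α : Type} [DecidableEq α] (s : Finset α) (T : α → Set (Sym2 W))
    (E : α → Set (Sym2 W → Prop)) (hT : (s : Set α).PairwiseDisjoint T) (hE : ∀ a, MeasurableSet (E a))
    (hD : ∀ a, DependsOn (· ∈ E a) (T a)) : mu p (⋂ a ∈ s, E a) = ∏ a ∈ s, mu p (E a) := by
  induction s using Finset.induction_on with
  | empty => simp
  | insert a s ha ih =>
    rw [set_biInter_insert, prod_insert ha, ← ih (hT.subset (by simp))]
    refine indep_of (T := ⋃ b ∈ s, T b) _ ?_ (hE a) (s.measurableSet_biInter fun b _ => hE b) (hD a) fun x y h => ?_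
    · simp only [Set.disjoint_iUnion_right]
      exact fun b hb => hT (by simp) (by simp [hb]) fun e => ha (e ▸ hb)
    · simp only [Set.mem_iInter]
      exact forall_congr fun b => forall_congr fun hb => hD b fun i hi => h i (Set.mem_biUnion hb hi)

def pe (h : ℤ) (u : V) : Sym2 W := s((par u, h), (u, h))

lemma pe_inj {h h' : ℤ} {u u' : V} (e : pe h u = pe h' u') : h = h' ∧ u = u' := by
  simp only [pe, Sym2.eq_iff, Prod.mk.injEq] at e
  rcases e with e | ⟨⟨e1, e2⟩, e3, -⟩
  · exact ⟨e.1.2, e.2.1⟩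
  · have a1 := congrArg (·.1.length) e1
    have a2 := congrArg (·.1.length) e3
    simp only [par, List.length_drop] at a1 a2
    exact ⟨e2, Subtype.ext ((List.eq_nil_of_length_eq_zero (by omega)).trans
      (List.eq_nil_of_length_eq_zero (by omega)).symm)⟩

def D (h : ℤ) : ℕ → V → Set (Sym2 W → Prop)
  | 0, _ => Set.univ
  | N + 1, v => ⋃ c ∈ univ.image (kid v), {ξ | ξ (pe h c)} ∩ D h N c

lemma D_meas (h : ℤ) (N : ℕ) : ∀ v, MeasurableSet (D h N v) := by
  induction N with
  | zero => exact fun _ => .univ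
  | succ N ih => exact fun v => Finset.measurableSet_biUnion _ fun c _ => .inter (by measurability) (ih c)

lemma D_dep (h : ℤ) (N : ℕ) : ∀ v, DependsOn (· ∈ D h N v) (pe h '' {u | v.1 <:+ u.1 ∧ u ≠ v}) := by
  induction N with
  | zero => exact fun _ _ _ _ => rfl
  | succ N ih =>
    intro v x y e
    simp only [D, Set.mem_iUnion, mem_image, mem_univ, true_and, Set.mem_inter_iff, Set.mem_ofPred_eq, eq_iff_iff]
    refine exists_congr fun c => exists_congr fun ⟨a, ha⟩ => ?_
    subst ha
    have k : ∀ u : V, (kid v a).1 <:+ u.1 → x (pe h u) = y (pe h u) := fun u hu =>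
      e _ ⟨u, ⟨(List.suffix_cons _ _).trans hu, fun c => by simpa [kid, c] using hu.length_le⟩, rfl⟩
    rw [k _ (List.suffix_refl _), show (x ∈ D h N _) = (y ∈ D h N _) from ih _ (by rintro _ ⟨u, hu, rfl⟩; exact k u hu.1)]

lemma D_anti (h : ℤ) (N : ℕ) : ∀ v, D h (N + 1) v ⊆ D h N v := by
  induction N with
  | zero => exact fun _ => Set.subset_univ _
  | succ N ih => exact fun v => Set.iUnion₂_mono fun c _ => Set.inter_subset_inter_right _ (ih c)

lemma pe_mem (h : ℤ) (v : V) (a : A) : H.Adj (v, h) (kid v a, h) := boxProd_adj_left.2 (adj.2 (.inr ⟨a, rfl⟩))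

lemma D_reach {h : ℤ} {ξ : Sym2 W → Prop} (N : ℕ) : ∀ v, ξ ∈ D h N v →
    ∃ u : V, u.1.length = v.1.length + N ∧ (H ⊓ fromEdgeSet {e | ξ e}).Reachable (v, h) (u, h) := by
  induction N with
  | zero => exact fun v _ => ⟨v, rfl, .rfl⟩
  | succ N ih =>
    intro v hv
    simp only [D, Set.mem_iUnion, mem_image, mem_univ, true_and] at hv
    obtain ⟨_, ⟨a, rfl⟩, h1, h2⟩ := hv
    obtain ⟨u, h3, h4⟩ := ih _ h2
    exact ⟨u, by simp [h3, kid]; omega, (Adj.reachable ((inf_adj ..).2 ⟨pe_mem h v a, (fromEdgeSet_adj ..).2 ⟨h1, (pe_mem h v a).ne⟩⟩)).trans h4⟩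

lemma D_prob {p : I} (hp : 1 / 1000 ≤ (p : ℝ)) (h : ℤ) (N : ℕ) :
    ∀ v, 1 / (2 * 5 ^ en v.1.length) ≤ (mu p).real (D h N v) := by
  induction N with
  | zero =>
    intro v
    rw [D, probReal_univ, div_le_one (by positivity)]
    linarith [one_le_pow₀ (M₀ := ℝ) (a := 5) (n := en v.1.length) (by norm_num)]
  | succ N ih =>
    intro v
    set n := v.1.length
    set x : ℝ := 1 / 1000 * (1 / (2 * 5 ^ en (n + 1))) with hx
    have a1 := prod_indep p (univ.image (kid v)) (fun c => pe h '' {u | c.1 <:+ u.1})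
      (fun c => ({ξ | ξ (pe h c)} ∩ D h N c)ᶜ) (fun c hc d hd hcd => ?_)
      (fun c => (MeasurableSet.inter (by measurability) (D_meas h N c)).compl) fun c x y e => ?_
    rotate_left
    · refine Set.disjoint_image_of_injective (fun u u' e => (pe_inj e).2) (Set.disjoint_left.2 fun u h1 h2 => hcd ?_)
      obtain ⟨a, -, rfl⟩ := mem_image.1 hc
      obtain ⟨b, -, rfl⟩ := mem_image.1 hd
      exact Subtype.ext ((List.suffix_of_suffix_length_le h1 h2 (by simp [kid])).eq_of_length (by simp [kid]))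
    · simp only [Set.mem_compl_iff, Set.mem_inter_iff, Set.mem_ofPred_eq]
      rw [e _ ⟨c, List.suffix_refl _, rfl⟩, show (x ∈ D h N c) = (y ∈ D h N c) from D_dep h N c fun i ⟨u, hu, hi⟩ => e i ⟨u, hu.1, hi⟩]
    have a2 : ∀ c ∈ univ.image (kid v), (mu p).real ({ξ | ξ (pe h c)} ∩ D h N c)ᶜ ≤ 1 - x := fun c hc => by
      obtain ⟨a, -, rfl⟩ := mem_image.1 hc
      rw [probReal_compl_eq_one_sub (MeasurableSet.inter (by measurability) (D_meas h N _)), Measure.real, mu,
        indep_of (S := {pe h (kid v a)}) (A := {ξ | ξ (pe h (kid v a))}) _ _ (by measurability) (D_meas h N _) (fun x y e => e _ rfl) (D_dep h N _),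
        ENNReal.toReal_mul]
      · have b1 := open_prob p {pe h (kid v a)} (fun e he => by rw [mem_singleton.1 he]; exact pe_mem h v a)
        simp only [mem_singleton, forall_eq, card_singleton, pow_one] at b1
        have b2 := ih (kid v a)
        change 1 - (mu p).real _ * (mu p).real _ ≤ _
        rw [b1]
        exact sub_le_sub_left (mul_le_mul hp b2 (by positivity) p.2.1) _
      · exact Set.disjoint_singleton_left.2 fun ⟨u, hu, e⟩ => hu.2 (pe_inj e).2
    have a3 : (mu p).real (D h (N + 1) v)ᶜ ≤ (1 - x) ^ #(univ.image (kid v)) := by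
      rw [D, Set.compl_iUnion₂, Measure.real, a1, ENNReal.toReal_prod]
      exact (prod_le_prod (fun _ _ => ENNReal.toReal_nonneg) a2).trans_eq (prod_const _)
    rw [probReal_compl_eq_one_sub (D_meas _ _ _)] at a3
    have x0 : 0 < x := by positivity
    have x1 : x ≤ 1 := by
      rw [hx, one_div_mul_one_div]
      exact (div_le_one (by positivity)).2 (by nlinarith [one_le_pow₀ (M₀ := ℝ) (a := 5) (n := en (n + 1)) (by norm_num)])
    set b := #(univ.image (kid v))
    have a4 : (1 - x) ^ b * (1 + b * x) ≤ 1 := by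
      calc _ ≤ (1 - x) ^ b * (1 + x) ^ b := by gcongr; exact one_add_mul_le_pow (by linarith) _
        _ ≤ 1 := by rw [← mul_pow]; exact pow_le_one₀ (by nlinarith) (by nlinarith)
    have a5 : 1 + b * x ≤ 2 * 5 ^ en n * (b * x) := by
      have e1 := one_le_pow₀ (M₀ := ℝ) (a := 5) (n := en (n + 1)) (by norm_num)
      have e2 : 2000 * 5 ^ en (n + 1) * x = 1 := by rw [hx]; field_simp; norm_num
      by_cases c : S n
      · have : b = 1 := card_eq_one.2 ⟨kid v 0, eq_singleton_iff_unique_mem.2 ⟨mem_image_of_mem _ (mem_univ _), fun z hz => by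
          obtain ⟨a, -, rfl⟩ := mem_image.1 hz
          exact Subtype.ext (by simp only [kid, if_pos (show S v.1.length from c)])⟩⟩
        have e3 := pow_le_pow_right₀ (M₀ := ℝ) (a := 5) (by norm_num) ((en_spec n).1 c)
        rw [pow_add] at e3
        rw [this]; push_cast; nlinarith
      · have : b = 10000 := by
          rw [show b = _ from card_image_of_injective _ fun a a' e => by simpa [kid, c, n] using congrArg (·.1) e]; simp [cardA]
        have e3 := pow_le_pow_right₀ (M₀ := ℝ) (a := 5) (by norm_num) (en_spec n).2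
        have e4 := one_le_pow₀ (M₀ := ℝ) (a := 5) (n := en n) (by norm_num)
        rw [pow_succ] at e3
        rw [this]; push_cast; nlinarith
    have a6 : 0 < 1 + b * x := by positivity
    rw [div_le_iff₀ (by positivity)]
    refine le_of_mul_le_mul_right ?_ a6
    have a7 := mul_le_mul_of_nonneg_right a3 a6.le
    nlinarith [mul_le_mul_of_nonneg_left (show b * x ≤ (mu p).real (D h (N + 1) v) * (1 + b * x) by linarith)
      (by positivity : (0 : ℝ) ≤ 2 * 5 ^ en n)]

lemma nbrH (x : W) : H.neighborSet x ⊆ ↑(insert (par x.1, x.2) (insert (x.1, x.2 + 1) (insert (x.1, x.2 - 1)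
    (univ.image fun a => (kid x.1 a, x.2))))) := by
  rintro ⟨v, n⟩ (⟨h1, h2⟩ | ⟨h1, h2⟩)
  · rcases adj.1 h1 with ⟨a, e⟩ | ⟨a, e⟩ <;> simp only at e h2 <;> simp [e, h2, par_kid]
  · simp only [hasse_adj, Order.covBy_iff_add_one_eq] at h1 h2
    simp only [coe_insert, Set.mem_insert_iff, Prod.mk.injEq, h2, true_and]
    omega

instance : H.LocallyFinite := fun x => ((Finset.finite_toSet _).subset (nbrH x)).fintype

def u (x : W) : ℝ := (1 / 100) ^ x.1.1.length * (1 / 2) ^ x.2

lemma u_pos (x : W) : 0 < u x := by unfold u; positivity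

lemma u_sum (x : W) : ∑ z : H.neighborSet x, u z ≤ 203 * u x := by
  rw [← sum_subtype (H.neighborFinset x) (by simp) u]
  refine (sum_le_sum_of_subset_of_nonneg (fun z hz => nbrH x (by simpa using hz)) fun z _ _ => (u_pos z).le).trans ?_
  have k : ∀ (a : W) (s : Finset W), ∑ z ∈ insert a s, u z ≤ u a + ∑ z ∈ s, u z := fun a s => by
    by_cases h : a ∈ s
    · rw [insert_eq_of_mem h]; linarith [u_pos a]
    · rw [sum_insert h]
  have a1 : u (par x.1, x.2) ≤ 100 * u x := by
    simp only [u, par, List.length_drop, ← mul_assoc]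
    gcongr
    rcases x.1.1.length with _ | n <;> simp [pow_succ]
    linarith
  have a2 : u (x.1, x.2 + 1) = 1 / 2 * u x := by simp only [u, zpow_add_one₀ (one_half_pos (α := ℝ)).ne']; ring
  have a3 : u (x.1, x.2 - 1) = 2 * u x := by simp only [u, zpow_sub_one₀ (one_half_pos (α := ℝ)).ne']; ring
  have a4 : ∑ z ∈ univ.image fun a => (kid x.1 a, x.2), u z ≤ 100 * u x := by
    refine (sum_le_card_nsmul _ _ (1 / 100 * u x) fun z hz => ?_).trans ?_
    · obtain ⟨a, -, rfl⟩ := mem_image.1 hz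
      simp only [u, kid, List.length_cons, pow_succ]; linarith
    · have : (#(univ.image fun a => (kid x.1 a, x.2)) : ℝ) ≤ 10000 := by exact_mod_cast card_image_le.trans (by simp [cardA])
      rw [nsmul_eq_mul]; nlinarith [u_pos x]
  refine (k _ _).trans ((add_le_add le_rfl ((k _ _).trans (add_le_add le_rfl (k _ _)))).trans ?_)
  linarith [u_pos x]

lemma walks (y : W) (m : ℕ) : ∀ x, #(H.finsetWalkLength m x y) * u y ≤ 203 ^ m * u x := by
  induction m with
  | zero =>
    intro x
    by_cases h : x = y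
    · subst h; simp [finsetWalkLength]
    · simp [finsetWalkLength, h, (u_pos x).le]
  | succ m ih =>
    intro x
    calc _ ≤ (∑ z : H.neighborSet x, (#(H.finsetWalkLength m z y) : ℝ)) * u y := by
          gcongr
          · exact (u_pos y).le
          · exact_mod_cast card_biUnion_le.trans (by simp)
      _ ≤ ∑ z : H.neighborSet x, 203 ^ m * u z := by rw [sum_mul]; exact sum_le_sum fun z _ => ih z
      _ ≤ _ := by rw [← mul_sum, pow_succ, mul_assoc]; gcongr; exact u_sum x

lemma two_pt {p : I} (hp : (p : ℝ) ≤ 1 / 406) (x y : W) :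
    mu p {ξ | (H ⊓ fromEdgeSet {e | ξ e}).Reachable x y} ≤ .ofReal (2 * (u x / u y)) := by
  have hs := (hasSum_geometric_two.mul_right (u x / u y))
  have h0 : 0 < u x / u y := div_pos (u_pos x) (u_pos y)
  rw [← hs.tsum_eq, ENNReal.ofReal_tsum_of_nonneg (fun _ => by positivity) hs.summable]
  refine (measure_mono (t := ⋃ m, ⋃ q ∈ (H.finsetWalkLength m x y).filter (·.IsPath),
    {ξ | ∀ e ∈ q.edges.toFinset, ξ e}) fun ξ hξ => ?_).trans ((measure_iUnion_le _).trans (ENNReal.tsum_le_tsum fun m => ?_))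
  · obtain ⟨q⟩ := hξ
    let q' := (q.bypass.mapLe inf_le_left)
    refine Set.mem_iUnion.2 ⟨q'.length, Set.mem_iUnion₂.2 ⟨q', mem_filter.2 ⟨mem_finsetWalkLength_iff.2 rfl,
      q.bypass_isPath.mapLe _⟩, fun e he => ?_⟩⟩
    have := q.bypass.edges_subset_edgeSet (e := e) (by simpa [q'] using he)
    simp only [edgeSet_inf, edgeSet_fromEdgeSet, Set.mem_inter_iff, Set.mem_sdiff] at this
    exact this.2.1
  · rw [← ofReal_measureReal (measure_ne_top _ _)]
    refine ENNReal.ofReal_le_ofReal ((measureReal_biUnion_finset_le _ _).trans ((sum_le_card_nsmul _ _ ((p : ℝ) ^ m)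
      fun q hq => ?_).trans ?_))
    · rw [mem_filter, mem_finsetWalkLength_iff] at hq
      rw [open_prob p _ fun e he => q.edges_subset_edgeSet (by simpa using he),
        List.toFinset_card_of_nodup hq.2.isTrail.edges_nodup, q.length_edges, hq.1]
    · have a1 : (#((H.finsetWalkLength m x y).filter (·.IsPath)) : ℝ) ≤ 203 ^ m * (u x / u y) := by
        rw [← mul_div_assoc, le_div_iff₀ (u_pos y)]
        refine le_trans ?_ (walks y m x)
        gcongr
        exacts [(u_pos y).le, filter_subset _ _]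
      have := p.2.1
      calc _ ≤ 203 ^ m * (u x / u y) * (1 / 406) ^ m := by rw [nsmul_eq_mul]; gcongr
        _ = _ := by rw [mul_right_comm, ← mul_pow]; norm_num

theorem result : ∃ (V : Type) (G : SimpleGraph V), Infinite V ∧ G.Connected ∧ (∀ v, (G.neighborSet v).Finite) ∧
    (∀ H : G.Subgraph, H.verts.Nonempty → ∀ ε : ℝ, 0 < ε → ∃ K : Finset V, K.Nonempty ∧ ↑K ⊆ H.verts ∧
      ({e ∈ H.edgeSet | ∃ u ∈ K, ∃ v ∉ K, e = s(u, v)}.ncard : ℝ) ≤ ε * K.card) ∧
    ∃ p₁ p₂ : I, p₁ < p₂ ∧ ∀ p ∈ Set.Icc p₁ p₂, ∀ᵐ ω ∂setBernoulli (G □ hasse ℤ).edgeSet p,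
      {C : ((G □ hasse ℤ) ⊓ fromEdgeSet ω).ConnectedComponent | C.supp.Infinite}.Infinite := by
  have hz : ∀ n, valid (List.replicate n 0) := fun n => by
    induction n with
    | zero => trivial
    | succ n ih => exact ⟨ih, fun _ => rfl⟩
  refine ⟨V, G, .of_injective (fun n => ⟨_, hz n⟩) fun a b h => by simpa using congrArg (·.1.length) h, conn,
    fun v => (Finset.finite_toSet _).subset (nbr v), fun H ⟨x, hx⟩ ε => amen H x hx,
    ⟨1 / 1000, by norm_num, by norm_num⟩, ⟨1 / 406, by norm_num, by norm_num⟩, by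
      rw [← Subtype.coe_lt_coe]; norm_num, fun p hp => ?_⟩
  rw [ae_iff, setBernoulli_apply']
  change mu p {ξ | ¬ {C : (H ⊓ fromEdgeSet {e | ξ e}).ConnectedComponent | C.supp.Infinite}.Infinite} = 0
  rw [← ae_iff]
  let B : ℕ → Set (Sym2 W → Prop) := fun j => ⋂ N, D (j ^ 2) N o
  have mB : ∀ j, MeasurableSet (B j) := fun j => .iInter fun N => D_meas _ _ _
  have a1 : ∀ j, (mu p).real (B j)ᶜ ≤ 1 / 2 := fun j => by
    have := ge_of_tendsto' ((ENNReal.tendsto_toReal (measure_ne_top _ _)).comp (tendsto_measure_iInter_atTop (μ := mu p)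
      (fun N => (D_meas (j ^ 2) N o).nullMeasurableSet) (antitone_nat_of_succ_le fun N => D_anti _ N o)
      ⟨0, measure_ne_top _ _⟩)) fun N => D_prob hp.1 (j ^ 2) N o
    rw [probReal_compl_eq_one_sub (mB j)]
    simp only [o, List.length_nil, en, lev] at this
    norm_num at this ⊢
    exact (by linarith : (1 : ℝ) ≤ 1 / 2 + 1 / 2).trans (add_le_add le_rfl this)
  have a2 : ∀ J, ∀ᵐ ξ ∂mu p, ∃ j, J ≤ j ∧ ξ ∈ B j := fun J => by
    rw [ae_iff, ← nonpos_iff_eq_zero]
    have := ENNReal.tendsto_ofReal (tendsto_pow_atTop_nhds_zero_of_lt_one (r := 1 / 2) (by norm_num) (by norm_num))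
    rw [ENNReal.ofReal_zero] at this
    refine ge_of_tendsto' this fun n => (measure_mono (t := ⋂ j ∈ Ico J (J + n), (B j)ᶜ) fun ξ h => ?_).trans ?_
    · exact Set.mem_iInter₂.2 fun j hj hc => h ⟨j, (mem_Ico.1 hj).1, hc⟩
    · rw [← ofReal_measureReal (measure_ne_top _ _), Measure.real, prod_indep p _ (fun j : ℕ => Set.range (pe (j ^ 2))) _
        (fun i _ j _ h => Set.disjoint_left.2 fun _ ⟨a, ha⟩ ⟨b, hb⟩ => h (by
          simpa using (pe_inj (ha.trans hb.symm)).1)) (fun j => (mB j).compl) fun j x y e => by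
          simp only [B, Set.mem_compl_iff, Set.mem_iInter]
          rw [forall_congr fun N => show (x ∈ D _ N o) = (y ∈ D _ N o) from D_dep _ N o fun i ⟨u, _, hi⟩ => e i ⟨u, hi⟩],
        ENNReal.toReal_prod]
      exact ENNReal.ofReal_le_ofReal ((prod_le_prod (fun _ _ => ENNReal.toReal_nonneg)
        fun j _ => a1 j).trans_eq (by simp))
  have a3 := ae_eventually_notMem (μ := mu p) (s := fun j : ℕ => ⋃ i ∈ range j,
    {ξ | (H ⊓ fromEdgeSet {e | ξ e}).Reachable (o, (j : ℤ) ^ 2) (o, (i : ℤ) ^ 2)}) (ne_top_of_le_ne_top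
      ((summable_pow_mul_geometric_of_norm_lt_one (R := ℝ) 1 (r := 1 / 2) (by norm_num)).mul_left 2).tsum_ofReal_ne_top
      (ENNReal.tsum_le_tsum fun j => (measure_biUnion_finset_le _ _).trans ((sum_le_card_nsmul _ _
        (.ofReal (2 * (1 / 2) ^ j)) fun i hi => (two_pt hp.2 _ _).trans (ENNReal.ofReal_le_ofReal ?_)).trans_eq ?_)))
  · filter_upwards [ae_all_iff.2 a2, a3] with ξ h1 h2
    obtain ⟨J, h2⟩ := eventually_atTop.1 h2
    refine Set.infinite_of_injOn_mapsTo (s := {j | J ≤ j ∧ ξ ∈ B j})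
      (f := fun j : ℕ => connectedComponentMk _ (o, (j : ℤ) ^ 2)) (fun i hi j hj e => ?_) (fun j hj hf => ?_)
      (Set.infinite_of_forall_exists_gt fun n => ?_)
    · rw [ConnectedComponent.eq] at e
      rcases lt_trichotomy i j with c | c | c
      · exact absurd (Set.mem_iUnion₂.2 ⟨i, mem_range.2 c, e.symm⟩) (h2 j hj.1)
      · exact c
      · exact absurd (Set.mem_iUnion₂.2 ⟨j, mem_range.2 c, e⟩) (h2 i hi.1)
    · obtain ⟨N, hN⟩ := (hf.image fun x => x.1.1.length).bddAbove
      obtain ⟨v, h3, h4⟩ := D_reach (N + 1) o (Set.mem_iInter.1 hj.2 _)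
      have := hN ⟨(v, _), ConnectedComponent.eq.2 h4.symm, rfl⟩
      simp only at this; omega
    · obtain ⟨j, h3, h4⟩ := h1 (max J (n + 1))
      exact ⟨j, ⟨by omega, h4⟩, by omega⟩
  · have : (i : ℤ) + 1 ≤ j := by exact_mod_cast mem_range.1 hi
    simp only [u, o, List.length_nil, pow_zero, one_mul]
    rw [← zpow_sub₀ (by norm_num), ← zpow_natCast]
    gcongr 2 * ?_
    exact zpow_le_zpow_right_of_le_one₀ (by norm_num) (by norm_num) (by nlinarith)
  · rw [card_range, nsmul_eq_mul, ← ENNReal.ofReal_natCast, ← ENNReal.ofReal_mul (by positivity)]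
    congr 1; ring

end

end Pool.Agent.Results.MP_7e30a6_pr.Interval
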